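import Pool.Agent.X248.LD.Main
import Pool.Agent.X248.Core.Mem

/-!
# The locating-dominating coalition number is NP-hard, also for the fixed bound 8

The graph of a hypergraph whose hyperedges have at most four points: the points, two twins `q_i`
and two twins `r_i` for each point `i`, two twins `p_e`, `u_e`, `v_e` for each hyperedge `e`, and
two twins `t`; the edges are `i q_i`, `q_i r_i`, `r_i t`, `p_e u_e`, `p_e v_e` and `u_e i` for
`i ∈ e`. A set is locating-dominating if and only if it meets all pairs of twins and, for all `e`
and all choices of a `u_e` and a `v_e`, the set consisting of these two and the points of `e`.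
So a set which is not locating-dominating misses one of the sets in this list, which have at most
six elements, and at most six disjoint sets can complete it; in an LDC-partition with eight parts
there are therefore two disjoint pairs of parts that form coalitions, that is, two disjoint
locating-dominating sets, and these give a 2-colouring of the hypergraph. Conversely, from a
2-colouring and two additional disjoint hyperedges with four new points one gets a partition with
eight parts.
-/

set_option autoImplicit false

namespace Pool.Agent.Results.MP_722fe9_lc.CoalitionNPHard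

open Pool.Agent.NPC Pool.Agent.H622R2 Pool.Agent.X248 Pool.Agent.X248.LD

/-- **Deciding whether `C_L(G) ≥ 8` is NP-hard**, on connected graphs; hence so is deciding
`C_L(G) ≥ k` for given `G` and `k`. -/
theorem result :
    (∀ L : Set (List Bool), InNP L → ∃ f : List Bool → List (List Bool),
      PolyTime (fun x => bits (f x)) ∧ ∀ x, (matGraph (f x)).Connected ∧
        (x ∈ L ↔ CLge (matGraph (f x)) 8)) ∧
    NPHardP (fun M : List (List Bool) => (matGraph M).Connected ∧ CLge (matGraph M) 8) ∧
    NPHardP (fun p : List (List Bool) × ℕ =>
      (matGraph p.1).Connected ∧ CLge (matGraph p.1) p.2) := by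
  have h1 : HardPr (fun _ : List (List Bool) => True)
      (fun M : List (List Bool) => (matGraph M).Connected ∧ CLge (matGraph M) 8) :=
    hardPr_ldc.trans (f := fun M => M) NPC.Poly.id (fun _ _ => trivial)
      (fun M hM => ⟨fun h => ⟨hM, h⟩, fun h => h.2⟩)
  have h2 : HardPr (fun _ : List (List Bool) × ℕ => True)
      (fun p : List (List Bool) × ℕ => (matGraph p.1).Connected ∧ CLge (matGraph p.1) p.2) :=
    hardPr_ldc.trans (f := fun M => (M, 8)) (NPC.Poly.pair NPC.Poly.id (NPC.Poly.const 8))
      (fun _ _ => trivial) (fun M hM => ⟨fun h => ⟨hM, h⟩, fun h => h.2⟩)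
  refine ⟨fun L hL => ?_, h1.toHardI.toNPHardP, h2.toHardI.toNPHardP⟩
  obtain ⟨f, hf, hp, hfL⟩ := hardPr_ldc L hL
  exact ⟨f, PC.toPolyTime hf, fun x => ⟨hp x, hfL x⟩⟩

end Pool.Agent.Results.MP_722fe9_lc.CoalitionNPHard
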